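import Pool.Agent.Run7.h479.XX.Law

/-!
# `L'(E, -1)` as a limit of sums over the numbers of points of `C`

Let `C` be a smooth projective curve of genus one over `ℚ`, given by integral equations `X`, and
`L(s) = L(E, s)` the L-function of its Jacobian `E`. For the primes `p` outside a finite set let
`α_{p,1}, α_{p,2}` be the Frobenius eigenvalues: `#C(𝔽_q) = q + 1 - α_{p,1}^e - α_{p,2}^e` for `q = p ^ e`.
By the modularity theorem `L` is entire and has a functional equation. For `γ > π/2`, an integer `m ≥ 0`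
and `T > 0` put

`W(T) = -∑_p ∑_{k ≥ 1} (α_{p,1}^k + α_{p,2}^k) p^{mk} / k · exp(iγ k log p / T) / Γ(1 + k log p / T)`.

The series converges absolutely, although its terms without the weight are unbounded, and the weight of
each single term tends to `1`. Then `L(-m) = 0`, `L'(-m)` is real and not zero, and

`W(T) = log T - Λ_γ - log |L'(-m)| + π i (m + r + 2 z) + O(1/T)`,

where `r = ord_{s=1} L(E, s)` and `z` is the number of the zeros of `L(E, s)` in the real interval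
`(1, 2)`. So `exp(W(T)) / T → e^{-Λ_γ} / L'(E, -m)`. No hypothesis on the zeros is used.

For `m = 1` this gives the following form of Q1. The value `Π(α)` of the regulator at an element `α` is in
`ℚ^* L'(E, -1)` if and only if `exp(W(T_k)) / T_k → y e^{-Λ_γ} / Π(α)` for some rational `y ≠ 0` and one
sequence `T_k → ∞`. The same holds for the other `K_{2m+2}(C)`.

The law for the sums `W(T)` at arbitrary integer points is the theorem of helper453, first handed in as
`MP_15b3df_nt.TraceLimitFormula`, in his library `Pool.Agent.Run7.h453.PC`. For the present page the order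
of the zero at `-m`, the imaginary part, i.e. the number of real zeros, and the functional equation
(`Pool.Agent.Run7.h479.XX.FunEq`) are added.
-/

set_option autoImplicit false

open Filter Topology Set

namespace Pool.Agent.Results.MP_4132b3_nt.PointCountFormula

variable {n : ℕ}

/-- For the projective scheme given by the set `X` of homogeneous polynomials over `ℤ` in `n` variables
and a field `κ` with `q` elements: `q - 1` times the number of the points with coordinates in `κ`. -/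
noncomputable def cone (X : Set (MvPolynomial (Fin n) ℤ)) (κ : Type) [Field κ] : ℕ :=
  Nat.card {u : Fin n → κ // u ≠ 0 ∧ ∀ f ∈ X, MvPolynomial.eval₂ (Int.castRingHom κ) u f = 0}

/-- The functional equation: `c ^ s Γ(s) L(s) = ± c ^ (2 - s) Γ(2 - s) L(2 - s)` for a real number
`c > 0`, off the poles of the gamma factors (`c = √N / 2π`, `N` the conductor). -/
def FunctionalEquation (L : ℂ → ℂ) : Prop :=
  ∃ c ε : ℝ, 0 < c ∧ (ε = 1 ∨ ε = -1) ∧
    ∀ s : ℂ, (∀ j : ℕ, s ≠ -(j : ℂ)) → (∀ j : ℕ, 2 - s ≠ -(j : ℂ)) →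
      (c : ℂ) ^ s * Complex.Gamma s * L s = ε * ((c : ℂ) ^ (2 - s) * Complex.Gamma (2 - s) * L (2 - s))

/-- `L(s) = L(E, s)` for the curve `C` of genus one with the equations `X`. Outside the finite set `S` of
primes `α p 0`, `α p 1` are the Frobenius eigenvalues of `C`; at the primes in `S` they are the zeros of a
real polynomial, of absolute value at most `√p` (the eigenvalues on the invariants of inertia, completed
by zeros). `L` is the Euler product for `Re s > 3/2`, entire and has the functional equation. -/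
structure GenusOne (X : Set (MvPolynomial (Fin n) ℤ)) (S : Finset Nat.Primes)
    (α : Nat.Primes → Fin 2 → ℂ) (L : ℂ → ℂ) : Prop where
  good : ∀ p ∉ S, (∀ j, ‖α p j‖ = √(p : ℕ)) ∧
    ∀ (κ : Type) [Field κ] [Finite κ] (e : ℕ), Nat.card κ = (p : ℕ) ^ e →
      (cone X κ : ℂ) = (((p : ℕ) : ℂ) ^ e - 1) * (((p : ℕ) : ℂ) ^ e + 1 - ∑ j, α p j ^ e)
  bad : ∀ p ∈ S, (∀ j, ‖α p j‖ ≤ √(p : ℕ)) ∧
    ∃ P : Polynomial ℝ, P.map (algebraMap ℝ ℂ) = ∏ j, (Polynomial.X - Polynomial.C (α p j))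
  prod : ∀ s : ℂ, 3 / 2 < s.re → L s = ∏' p : Nat.Primes, ∏ j, (1 - α p j * ((p : ℕ) : ℂ) ^ (-s))⁻¹
  entire : Differentiable ℂ L
  funEq : FunctionalEquation L

/-- The weight `exp(iγ t / T) / Γ(1 + t / T)`. -/
noncomputable def weight (γ T t : ℝ) : ℂ :=
  Complex.exp ((γ * (t / T) : ℝ) * Complex.I) * ((Real.Gamma (1 + t / T))⁻¹ : ℝ)

/-- The term of `W(T)` for `p = x.1` and `k = x.2 + 1`. -/
noncomputable def term (m : ℕ) (α : Nat.Primes → Fin 2 → ℂ) (γ T : ℝ) (x : Nat.Primes × ℕ) : ℂ :=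
  -((∑ j, α x.1 j ^ (x.2 + 1)) * ((x.1 : ℕ) : ℂ) ^ (m * (x.2 + 1)) / (x.2 + 1)) *
    weight γ T ((x.2 + 1) * Real.log (x.1 : ℕ))

/-- `W(T)` -/
noncomputable def W (m : ℕ) (α : Nat.Primes → Fin 2 → ℂ) (γ T : ℝ) : ℂ := ∑' x, term m α γ T x

/-- `Λ_γ = ∫_0^∞ (e^{-u} - e^{iγu} / Γ(1 + u)) du / u` -/
noncomputable def Lam (γ : ℝ) : ℂ := ∫ u in Set.Ioi (0 : ℝ),
  (Complex.exp (-(u : ℂ)) - Complex.exp ((γ * u : ℝ) * Complex.I) * ((Real.Gamma (1 + u))⁻¹ : ℝ)) / u

/-- The order of the zero of `L` at the real point `x`. -/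
noncomputable def ord (L : ℂ → ℂ) (x : ℝ) : ℤ := (meromorphicOrderAt L (x : ℂ)).untop₀

/-- The number `m + r + 2 z` of the real zeros of `L` to the right of `-m`. -/
noncomputable def zeros (L : ℂ → ℂ) (m : ℕ) : ℤ := m + ord L 1 + 2 * ∑ᶠ x ∈ Ioo (1 : ℝ) 2, ord L x

section proof

variable {X : Set (MvPolynomial (Fin n) ℤ)} {S : Finset Nat.Primes}
  {α : Nat.Primes → Fin 2 → ℂ} {L : ℂ → ℂ}

theorem GenusOne.norm (h : GenusOne X S α L) (p : Nat.Primes) (j : Fin 2) :
    ‖α p j‖ ≤ ((p : ℕ) : ℝ) ^ (1 / 2 : ℝ) := by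
  rw [← Real.sqrt_eq_rpow]
  by_cases hp : p ∈ S
  · exact (h.bad p hp).1 j
  · exact ((h.good p hp).1 j).le

theorem GenusOne.re (h : GenusOne X S α L) (p : Nat.Primes) (k : ℕ) :
    (∑ j, α p j ^ (k + 1)).im = 0 := by
  by_cases hp : p ∈ S
  · exact Pool.Agent.N41.RM.psum_real_of_stable (Pool.Agent.N41.RM.conj_stable (h.bad p hp).2) _
  · have : Fact (p : ℕ).Prime := ⟨p.2⟩
    have h1 := (h.good p hp).2 (GaloisField p (k + 1)) (k + 1) (GaloisField.card _ _ k.succ_ne_zero)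
    have hp1 : (1 : ℝ) < ((p : ℕ) : ℝ) ^ (k + 1) :=
      one_lt_pow₀ (by exact_mod_cast p.2.one_lt) k.succ_ne_zero
    have h2 : ((((p : ℕ) : ℝ) ^ (k + 1) - 1 : ℝ) : ℂ) ≠ 0 := by
      exact_mod_cast (sub_pos.2 hp1).ne'
    have h3 : ∑ j, α p j ^ (k + 1) = (((((p : ℕ) : ℝ) ^ (k + 1) + 1) -
        (cone X (GaloisField p (k + 1)) : ℝ) / (((p : ℕ) : ℝ) ^ (k + 1) - 1) : ℝ) : ℂ) := by
      push_cast at h2 ⊢
      rw [h1]
      field_simp
      ring
    rw [h3, Complex.ofReal_im]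

theorem GenusOne.eg (h : GenusOne X S α L) :
    Pool.Agent.N41.RM.EG (1 / 2 : ℝ) (fun p : Nat.Primes => ((p : ℕ) : ℝ)) α where
  two_le := fun p => by exact_mod_cast p.2.two_le
  sum := fun σ hσ => by
    have := (Nat.Primes.summable_rpow (r := -σ)).2 (by linarith)
    exact this
  ha := h.norm
  real := h.re

theorem term_eq (m : ℕ) (γ T : ℝ) (h : GenusOne X S α L) (x : Nat.Primes × ℕ) :
    term m α γ T x = Pool.Agent.Run7.h453.PC.aterm (fun p : Nat.Primes => ((p : ℕ) : ℝ)) α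
      (-(m : ℝ)) γ T x := by
  have hq0 : (0 : ℝ) < ((x.1 : ℕ) : ℝ) := by exact_mod_cast x.1.2.pos
  have e3 : ((∑ j, α x.1 j ^ (x.2 + 1)).re : ℂ) = ∑ j, α x.1 j ^ (x.2 + 1) := by
    apply Complex.ext
    · simp
    · rw [h.re x.1 x.2, Complex.ofReal_im]
  have e1 : Real.exp (-(-(m : ℝ) * ((x.2 + 1) * Real.log (x.1 : ℕ)))) =
      ((x.1 : ℕ) : ℝ) ^ (m * (x.2 + 1)) := by
    rw [← Real.rpow_natCast, Real.rpow_def_of_pos hq0]
    congr 1
    push_cast
    ring
  unfold term Pool.Agent.Run7.h453.PC.aterm Pool.Agent.Run7.h453.PC.cs Pool.Agent.N41.RM.cq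
    Pool.Agent.N41.RM.fq weight Pool.Agent.W189.ML.om
  rw [e1]
  push_cast
  rw [e3]
  ring

end proof

/-- **Theorem.** Let `C` be a curve of genus one over `ℚ` with L-function `L` (`GenusOne`), `γ > π/2` and
`m ≥ 0` an integer.

* `W(T)` converges absolutely for `T > 0`, `L(-m) = 0`, and `L'(-m)` is a real number `c ≠ 0` such that
  `W(T) = log T - Λ_γ - log |c| + π i (m + r + 2 z) + O(1/T)`.
* `exp(W(T)) / T → e^{-Λ_γ} / L'(-m)`, and `Im W(T) → -Im Λ_γ + π (m + r + 2 z)`.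
* For every real number `Π`, for example `Π(α)` for `m = 1`: `Π` is a nonzero rational multiple of `L'(-m)`
  if and only if `Π ≠ 0` and `exp(W(T_k)) / T_k → y e^{-Λ_γ} / Π` for some rational `y ≠ 0` and one sequence
  `T_k → ∞`. -/
theorem result (n : ℕ) (X : Set (MvPolynomial (Fin n) ℤ)) (S : Finset Nat.Primes)
    (α : Nat.Primes → Fin 2 → ℂ) (L : ℂ → ℂ) (h : GenusOne X S α L) (γ : ℝ)
    (hγ : Real.pi / 2 < γ) (m : ℕ) :
    (∀ T : ℝ, 0 < T → Summable fun x => ‖term m α γ T x‖) ∧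
    (L (-(m : ℂ)) = 0 ∧ ∃ c : ℝ, c ≠ 0 ∧ deriv L (-(m : ℂ)) = c ∧
      (fun T : ℝ => W m α γ T - (Real.log T - Lam γ - Real.log |c| +
        Real.pi * (zeros L m : ℂ) * Complex.I)) =O[atTop] (fun T : ℝ => 1 / T)) ∧
    Tendsto (fun T : ℝ => Complex.exp (W m α γ T) / (T : ℂ)) atTop
      (𝓝 (Complex.exp (-Lam γ) / deriv L (-(m : ℂ)))) ∧
    Tendsto (fun T : ℝ => (W m α γ T).im) atTop (𝓝 (-(Lam γ).im + Real.pi * zeros L m)) ∧
    ∀ Pi : ℝ, (∃ y : ℚ, y ≠ 0 ∧ (Pi : ℂ) = y * deriv L (-(m : ℂ))) ↔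
      Pi ≠ 0 ∧ ∃ (y : ℚ) (T : ℕ → ℝ), y ≠ 0 ∧ Tendsto T atTop atTop ∧
        Tendsto (fun k => Complex.exp (W m α γ (T k)) / (T k : ℂ)) atTop
          (𝓝 (y * Complex.exp (-Lam γ) / Pi)) := by
  have E := h.eg
  have hfe : Run7.h479.XX.FunEq L 2 := by
    obtain ⟨c, ε, hc, hε, h1⟩ := h.funEq
    refine ⟨c, ε, hc, hε, fun s h2 h3 => ?_⟩
    have := h1 s h2 (fun j => by simpa using h3 j)
    simpa using this
  have hprod : ∀ s : ℂ, 1 + (1 / 2 : ℝ) < s.re → L s = ∏' p : Nat.Primes,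
      ∏ j, (1 - α p j * (((p : ℕ) : ℝ) : ℂ) ^ (-s))⁻¹ := fun s hs => by
    rw [h.prod s (by linarith)]
    simp only [Complex.ofReal_natCast]
  obtain ⟨h0, c, hc, hd, h1, h2⟩ := Run7.h479.XX.law E h.entire (w := 2) (by norm_num) (by norm_num)
    hfe hprod m hγ
  have hWf : W m α γ = fun T => ∑' x, Pool.Agent.Run7.h453.PC.aterm
      (fun p : Nat.Primes => ((p : ℕ) : ℝ)) α (-(m : ℝ)) γ T x :=
    funext fun T => tsum_congr fun x => term_eq m γ T h x
  have hLam : Pool.Agent.W187.UR.Lam γ = Lam γ := rfl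
  have hz : (m + (meromorphicOrderAt L (((2 : ℝ) / 2 : ℝ) : ℂ)).untop₀ +
      2 * ∑ᶠ x ∈ Ioo ((2 : ℝ) / 2) 2, (meromorphicOrderAt L (x : ℂ)).untop₀ : ℤ) = zeros L m := by
    unfold zeros ord
    norm_num
  rw [hz, hLam] at h1
  rw [hLam] at h2
  have hcc : (c : ℂ) ≠ 0 := by exact_mod_cast hc
  have hlaw : (fun T : ℝ => W m α γ T - (Real.log T - Lam γ - Real.log |c| +
      Real.pi * (zeros L m : ℂ) * Complex.I)) =O[atTop] (fun T : ℝ => 1 / T) := by
    rw [hWf]
    exact h1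
  have hlim : Tendsto (fun T : ℝ => Complex.exp (W m α γ T) / (T : ℂ)) atTop
      (𝓝 (Complex.exp (-Lam γ) / c)) := by
    rw [hWf]
    exact h2
  have hA : Complex.exp (-Lam γ) ≠ 0 := Complex.exp_ne_zero _
  refine ⟨fun T hT => ?_, ⟨h0, c, hc, hd, hlaw⟩, by rw [hd]; exact hlim, ?_, fun Pi => ?_⟩
  · refine (Pool.Agent.Run7.h453.PC.aterm_summable E (-(m : ℝ)) γ hT).congr fun x => ?_
    rw [term_eq m γ T h]
  · have h3 : Tendsto (fun T : ℝ => (W m α γ T - (Real.log T - Lam γ - Real.log |c| +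
        Real.pi * (zeros L m : ℂ) * Complex.I)).im) atTop (𝓝 0) := by
      have h4 := hlaw.trans_tendsto (tendsto_const_nhds.div_atTop tendsto_id)
      have h5 := (Complex.continuous_im.tendsto 0).comp h4
      rw [Complex.zero_im] at h5
      exact h5
    have h4 := h3.add_const (-(Lam γ).im + Real.pi * zeros L m)
    rw [zero_add] at h4
    refine h4.congr fun T => ?_
    have e1 : (Real.pi * (zeros L m : ℂ) * Complex.I).im = Real.pi * zeros L m := by
      rw [Complex.mul_I_im]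
      simp
    rw [Complex.sub_im, Complex.add_im, e1, Complex.sub_im, Complex.sub_im, Complex.ofReal_im,
      Complex.ofReal_im]
    ring
  · rw [hd]
    constructor
    · rintro ⟨y, hy, h5⟩
      have hyc : (y : ℂ) ≠ 0 := by exact_mod_cast hy
      have hPi : (Pi : ℂ) ≠ 0 := by
        rw [h5]
        exact mul_ne_zero hyc hcc
      refine ⟨by exact_mod_cast hPi, y, fun k => k, hy, tendsto_natCast_atTop_atTop, ?_⟩
      have h6 : (y : ℂ) * Complex.exp (-Lam γ) / Pi = Complex.exp (-Lam γ) / c := by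
        rw [h5]
        field_simp
      rw [h6]
      exact hlim.comp tendsto_natCast_atTop_atTop
    · rintro ⟨hPi, y, T, hy, hT, h5⟩
      have hPi' : (Pi : ℂ) ≠ 0 := by exact_mod_cast hPi
      have h6 := tendsto_nhds_unique (hlim.comp hT) h5
      refine ⟨y, hy, ?_⟩
      rw [div_eq_div_iff hcc hPi'] at h6
      have h7 : Complex.exp (-Lam γ) * (Pi : ℂ) = Complex.exp (-Lam γ) * (y * c) := by
        rw [h6]
        ring
      exact mul_left_cancel₀ hA h7

end Pool.Agent.Results.MP_4132b3_nt.PointCountFormula
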